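import Pool.Agent.X12.Toep6

/-!
# The determinant of `[x + (j - k / p)]` of order `(p - 5) / 2`, `p ≡ 3 (mod 4)`
-/

set_option autoImplicit false

namespace Pool.Agent.Results.MP_f45d88_nt.SmallToeplitz

open Polynomial Pool.Agent.X12

/-- `D_p(x)`: the determinant of the matrix `[x + ((j - k) / p)]`, `0 ≤ j, k ≤ (p - 7) / 2`, of
order `(p - 5) / 2`, over `ℤ[x]`. -/
noncomputable def D (p : ℕ) [Fact p.Prime] : ℤ[X] :=
  (Matrix.of fun j k : Fin ((p - 5) / 2) => X + C (legendreSym p (((j : ℕ) : ℤ) - ((k : ℕ) : ℤ)))).det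

/-- For every prime `p ≡ 3 (mod 4)`, `p ≥ 7`, one has `D_p(x) = ⌊(p - 2) / 3⌋² x`. -/
theorem result (p : ℕ) [Fact p.Prime] (hp : p % 4 = 3) (h7 : 7 ≤ p) :
    D p = ((((p - 2) / 3 : ℕ) : ℤ[X]) ^ 2) * X := by
  obtain ⟨m, hm⟩ : ∃ m : ℕ, p = 2 * (2 + m) + 1 := ⟨(p - 5) / 2, by omega⟩
  have hm' : (p - 5) / 2 = m := by omega
  have h1 : D p = ((TC p ((p - 5) / 2)).map (C : ℤ →+* ℤ[X]) +
      (X : ℤ[X]) • Matrix.of fun _ _ => (1 : ℤ[X])).det := by
    rw [D]
    congr 1
    ext1 j k
    simp only [TC, Matrix.of_apply, Matrix.add_apply, Matrix.map_apply, Matrix.smul_apply,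
      smul_eq_mul, mul_one]
    rw [add_comm, legendre_eq]
    push_cast
    rfl
  have hskew : (TC p m).transpose = - TC p m := by
    ext i j
    rw [Matrix.transpose_apply, Matrix.neg_apply]
    simp only [TC, Matrix.of_apply]
    rw [← neg_sub, qc_neg, qc_neg_one_of_three hp]
    ring
  have h0 : (TC p m).det = 0 := by
    have h7 := congrArg Matrix.det hskew
    rw [Matrix.det_transpose, Matrix.det_neg, Fintype.card_fin] at h7
    have hodd : Odd m := Nat.odd_iff.2 (by omega)
    rw [hodd.neg_one_pow] at h7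
    omega
  have hs := det_bd_small hm hp
  have h3 : qc p 3 = if p % 3 = 1 then -1 else 1 := by
    have h2 : qc p ((3 : ℕ) : ZMod p) = - jacobiSym p 3 := by
      rw [qc_nat hp (by norm_num), if_neg (by norm_num)]
      ring
    have h4 : p % 3 = 1 ∨ p % 3 = 2 := by
      have : p % 3 ≠ 0 := by
        intro h
        have h5 := (Nat.prime_dvd_prime_iff_eq Nat.prime_three (Fact.out : p.Prime)).1
          (Nat.dvd_of_mod_eq_zero h)
        omega
      omega
    have h6 : qc p 3 = - jacobiSym p 3 := by exact_mod_cast h2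
    rw [h6, jacobiSym.mod_left]
    rcases h4 with h | h
    · have : (p : ℤ) % (3 : ℕ) = 1 := by omega
      rw [this, jacobiSym.one_left, if_pos h]
    · have : (p : ℤ) % (3 : ℕ) = 2 := by omega
      rw [this, if_neg (by omega)]
      have e : jacobiSym 2 3 = -1 := by
        rw [jacobiSym.at_two (by decide)]
        decide
      rw [e]; norm_num
  have hfin : (bd (TC p m)).det = (((p - 2) / 3 : ℕ) : ℤ) ^ 2 := by
    have h4 : p % 3 = 1 ∨ p % 3 = 2 := by
      have : p % 3 ≠ 0 := by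
        intro h
        have h5 := (Nat.prime_dvd_prime_iff_eq Nat.prime_three (Fact.out : p.Prime)).1
          (Nat.dvd_of_mod_eq_zero h)
        omega
      omega
    rw [h3] at hs
    have h5 : (p : ℤ) - 3 + (if p % 3 = 1 then -1 else 1) = 3 * (((p - 2) / 3 : ℕ) : ℤ) := by
      rcases h4 with h | h
      · rw [if_pos h]; omega
      · rw [if_neg (by omega)]; omega
    rw [h5] at hs
    have h6 : (9 : ℤ) * (bd (TC p m)).det = 9 * (((p - 2) / 3 : ℕ) : ℤ) ^ 2 := by
      rw [hs]; ring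
    exact mul_left_cancel₀ (by norm_num) h6
  rw [h1, det_add_J, bd_map, ← RingHom.mapMatrix_apply, ← RingHom.mapMatrix_apply,
    ← RingHom.map_det, ← RingHom.map_det, hm', hfin, h0, map_zero, zero_add]
  simp only [map_pow, map_natCast]
  ring

end Pool.Agent.Results.MP_f45d88_nt.SmallToeplitz
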